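import Pool.Agent.Y674.HY.Stm2

/-!
# Project HY, part 2: the auxiliary form
-/

set_option autoImplicit false

namespace Pool.Agent.Y945.HY

open Polynomial NumberField Pool.Agent.Y674.HY

/-- bound for the coefficients -/
def bb (b : ℕ → ℤ) (κ : ℕ) : ℕ := 1 + ∑ l ∈ Finset.range (κ + 1), (b l).natAbs

lemma coeff_tr_mul {R : Type} [CommRing R] (b : ℕ → ℤ) (κ : ℕ) (z : R) (Q : R[X]) (m : ℕ) :
    (tr b κ z * Q).coeff m = ∑ l ∈ Finset.range (κ + 1),
      ((b l : R) * z ^ l) * (if l ≤ m then Q.coeff (m - l) else 0) := by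
  unfold tr
  rw [Finset.sum_mul, Polynomial.finsetSum_coeff]
  refine Finset.sum_congr rfl fun l _ => ?_
  rw [mul_assoc, Polynomial.coeff_C_mul, Polynomial.coeff_X_pow_mul']

lemma coeff_tr_bound {R : Type} [CommRing R] (φ : R →+* ℂ) (b : ℕ → ℤ) (κ : ℕ) (z : R)
    (Q : R[X]) {B D : ℝ} (hB : 1 ≤ B) (hD : 0 ≤ D) (hz : ‖φ z‖ ≤ B)
    (hQ : ∀ m, ‖φ (Q.coeff m)‖ ≤ D) (m : ℕ) :
    ‖φ ((tr b κ z * Q).coeff m)‖ ≤ (bb b κ : ℝ) * B ^ κ * D := by
  have hB0 : 0 ≤ B := by linarith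
  rw [coeff_tr_mul, map_sum]
  calc ‖∑ l ∈ Finset.range (κ + 1), φ (((b l : R) * z ^ l) *
          (if l ≤ m then Q.coeff (m - l) else 0))‖
      ≤ ∑ l ∈ Finset.range (κ + 1), ((b l).natAbs : ℝ) * (B ^ κ * D) := by
        refine norm_sum_le_of_le _ fun l hl => ?_
        have hl' : l ≤ κ := Nat.lt_succ_iff.1 (Finset.mem_range.1 hl)
        rw [map_mul, map_mul, map_intCast, map_pow, norm_mul, norm_mul, norm_pow,
          Complex.norm_intCast]
        have h1 : ‖φ (if l ≤ m then Q.coeff (m - l) else 0)‖ ≤ D := by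
          split_ifs
          · exact hQ _
          · rw [map_zero, norm_zero]; exact hD
        have h2 : ‖φ z‖ ^ l ≤ B ^ κ :=
          (pow_le_pow_left₀ (norm_nonneg _) hz l).trans (pow_le_pow_right₀ hB hl')
        have h3 : |(b l : ℝ)| = ((b l).natAbs : ℝ) := by
          rw [Nat.cast_natAbs]; push_cast; rfl
        rw [h3, mul_assoc]
        gcongr
    _ = ((∑ l ∈ Finset.range (κ + 1), (b l).natAbs : ℕ) : ℝ) * (B ^ κ * D) := by
        rw [← Finset.sum_mul]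
        push_cast
        rfl
    _ ≤ (bb b κ : ℝ) * (B ^ κ * D) := by
        have h4 : ((∑ l ∈ Finset.range (κ + 1), (b l).natAbs : ℕ) : ℝ) ≤ (bb b κ : ℝ) := by
          unfold bb
          exact_mod_cast Nat.le_add_left _ _
        have h5 : 0 ≤ B ^ κ * D := by positivity
        exact mul_le_mul_of_nonneg_right h4 h5
    _ = (bb b κ : ℝ) * B ^ κ * D := by ring

lemma one_le_bB (b : ℕ → ℤ) (κ : ℕ) {B : ℝ} (hB : 1 ≤ B) : 1 ≤ (bb b κ : ℝ) * B ^ κ := by
  have h1 : (1 : ℝ) ≤ (bb b κ : ℝ) := by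
    unfold bb
    exact_mod_cast Nat.le_add_right _ _
  have h2 : 1 ≤ B ^ κ := one_le_pow₀ hB
  nlinarith

lemma QI_bound {R : Type} [CommRing R] {e : ℕ} (φ : R →+* ℂ) (b : ℕ → ℤ) (κ : ℕ) (z : Fin e → R)
    {B : ℝ} (hB : 1 ≤ B) (hz : ∀ i, ‖φ (z i)‖ ≤ B) (I : Finset (Fin e)) :
    ∀ m, ‖φ ((QI b κ z I).coeff m)‖ ≤ ((bb b κ : ℝ) * B ^ κ) ^ I.card := by
  classical
  induction I using Finset.induction_on with
  | empty =>
    intro m
    unfold QI
    rw [Finset.prod_empty, Finset.card_empty, pow_zero, Polynomial.coeff_one]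
    split_ifs
    · rw [map_one, norm_one]
    · rw [map_zero, norm_zero]; exact zero_le_one
  | insert a s ha ih =>
    intro m
    unfold QI
    rw [Finset.prod_insert ha, Finset.card_insert_of_notMem ha, pow_succ']
    have h0 := one_le_bB b κ hB
    exact coeff_tr_bound φ b κ (z a) (∏ i ∈ s, tr b κ (z i)) hB (by positivity) (hz a) ih m

lemma entry_bound {R : Type} [CommRing R] {e : ℕ} (φ : R →+* ℂ) (b : ℕ → ℤ) (κ : ℕ)
    (z : Fin e → R) {B : ℝ} (hB : 1 ≤ B) (hz : ∀ i, ‖φ (z i)‖ ≤ B) (I : Finset (Fin e))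
    (j r m : ℕ) :
    ‖φ ((X ^ j * (X ^ r * QI b κ z I)).coeff m)‖ ≤ ((bb b κ : ℝ) * B ^ κ) ^ e := by
  have h0 := one_le_bB b κ hB
  have h1 : ((bb b κ : ℝ) * B ^ κ) ^ I.card ≤ ((bb b κ : ℝ) * B ^ κ) ^ e := by
    apply pow_le_pow_right₀ h0
    have := Finset.card_le_univ I
    simpa using this
  rw [← mul_assoc, ← pow_add, Polynomial.coeff_X_pow_mul']
  split_ifs
  · exact (QI_bound φ b κ z hB hz I _).trans h1
  · rw [map_zero, norm_zero]
    positivity

lemma card_norm {e : ℕ} (z0 : Fin e) :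
    Fintype.card {ε : Fin e → ℤˣ // ε z0 = 1} ≤ Fintype.card (Ev e) := by
  classical
  let J : (Fin e → ℤˣ) → Finset (Fin e) := fun ε => Finset.univ.filter (fun i => ε i = -1)
  have hJ0 : ∀ ε : {ε : Fin e → ℤˣ // ε z0 = 1}, z0 ∉ J ε.1 := by
    intro ε h
    have h1 : ε.1 z0 = -1 := (Finset.mem_filter.1 h).2
    rw [ε.2] at h1
    exact absurd h1 (by decide)
  let g : {ε : Fin e → ℤˣ // ε z0 = 1} → Finset (Fin e) := fun ε =>
    if Even (J ε.1).card then J ε.1 else insert z0 (J ε.1)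
  have hg : ∀ ε, Even (g ε).card := by
    intro ε
    simp only [g]
    split_ifs with h
    · exact h
    · rw [Finset.card_insert_of_notMem (hJ0 ε)]
      exact Nat.even_add_one.2 h
  have hinj : Function.Injective (fun ε => (⟨g ε, hg ε⟩ : Ev e)) := by
    intro ε ε' h
    have h1 : g ε = g ε' := congrArg Subtype.val h
    have h2 : ∀ ε, (g ε).erase z0 = J ε.1 := by
      intro ε
      simp only [g]
      split_ifs
      · exact Finset.erase_eq_of_notMem (hJ0 ε)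
      · exact Finset.erase_insert (hJ0 ε)
    have h3 : J ε.1 = J ε'.1 := by rw [← h2, ← h2, h1]
    apply Subtype.ext
    funext i
    have h4 : ε.1 i = -1 ↔ ε'.1 i = -1 := by
      have := Finset.ext_iff.1 h3 i
      simpa [J] using this
    rcases Int.units_eq_one_or (ε.1 i) with h5 | h5
    · rcases Int.units_eq_one_or (ε'.1 i) with h6 | h6
      · rw [h5, h6]
      · rw [h5, h6] at h4
        exact absurd (h4.2 rfl) (by decide)
    · rw [h5, h4.1 h5]
  exact Fintype.card_le_of_injective _ hinj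

theorem sieg (h : CRAM) : SIEG := by
  classical
  intro e he b
  obtain ⟨k, hk⟩ : ∃ k, k = e * 2 ^ e := ⟨_, rfl⟩
  obtain ⟨κ, hκ⟩ : ∃ κ, κ = k + e := ⟨_, rfl⟩
  obtain ⟨q, hq⟩ : ∃ q, q = Fintype.card (Ev e × Fin (k + 1)) := ⟨_, rfl⟩
  have : Nonempty (Ev e) := ⟨⟨∅, by simp⟩⟩
  have hq0 : 0 < q := by
    rw [hq]
    exact Fintype.card_pos
  have hb0 : 0 < bb b κ := by unfold bb; omega
  refine ⟨k, κ, (q * bb b κ ^ e) ^ q, κ * e * q, hκ.ge, ?_, ?_⟩
  · exact Nat.one_le_iff_ne_zero.2 (by positivity)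
  intro L _ _ z B hB hz η
  let z0 : Fin e := ⟨0, by omega⟩
  let nrm : (Fin e → ℤˣ) → (Fin e → ℤˣ) := fun ε => if ε z0 = 1 then ε else -ε
  have hn1 : ∀ ε, nrm ε z0 = 1 := by
    intro ε
    simp only [nrm]
    split_ifs with h1
    · exact h1
    · rw [Pi.neg_apply, (Int.units_eq_one_or (ε z0)).resolve_left h1]
      simp
  have hn2 : ∀ ε, nrm ε = ε ∨ nrm ε = -ε := by
    intro ε
    simp only [nrm]
    split_ifs
    · exact Or.inl rfl
    · exact Or.inr rfl
  have hsgn : ∀ (ε : Fin e → ℤˣ) (I : Ev e), sgn (nrm ε) I.1 = sgn ε I.1 := by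
    intro ε I
    rcases hn2 ε with h1 | h1
    · rw [h1]
    · rw [h1]
      unfold sgn
      have h2 : ∏ i ∈ I.1, (-ε) i = ∏ i ∈ I.1, ε i := by
        have h3 : ∀ i ∈ I.1, (-ε) i = (-1) * ε i := fun i _ => by simp
        rw [Finset.prod_congr rfl h3, Finset.prod_mul_distrib, Finset.prod_const,
          Even.neg_one_pow I.2, one_mul]
      rw [h2]
  let Eq' := {ε : {ε : Fin e → ℤˣ // ε z0 = 1} // ε.1 ≠ nrm η} × Fin (k + e + 1)
  let M : Eq' → Ev e × Fin (k + 1) → 𝓞 L := fun x u =>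
    ((sgn x.1.1.1 u.1.1 : ℤ) : 𝓞 L) *
      (X ^ (u.2 : ℕ) * (X ^ (e - u.1.1.card / 2) * QI b κ z u.1.1)).coeff (x.2 : ℕ)
  have hpq : Fintype.card Eq' < q := by
    rw [hq, Fintype.card_prod, Fintype.card_prod, Fintype.card_fin, Fintype.card_fin]
    have h1 : Fintype.card {ε : {ε : Fin e → ℤˣ // ε z0 = 1} // ε.1 ≠ nrm η} <
        Fintype.card {ε : Fin e → ℤˣ // ε z0 = 1} :=
      Fintype.card_subtype_lt (x := ⟨nrm η, hn1 η⟩) (by simp)
    have h2 := card_norm z0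
    have h3 : Fintype.card {ε : Fin e → ℤˣ // ε z0 = 1} ≤ 2 ^ e := by
      refine (Fintype.card_subtype_le _).trans ?_
      rw [Fintype.card_fun, Fintype.card_fin]
      simp
    generalize Fintype.card {ε : {ε : Fin e → ℤˣ // ε z0 = 1} // ε.1 ≠ nrm η} = r at *
    generalize Fintype.card {ε : Fin e → ℤˣ // ε z0 = 1} = n at *
    generalize Fintype.card (Ev e) = v at *
    have h4 : r * e ≤ k := by
      rw [hk, mul_comm]
      exact Nat.mul_le_mul_left _ (by omega)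
    calc r * (k + e + 1) = r * (k + 1) + r * e := by ring
      _ < r * (k + 1) + (k + 1) := by omega
      _ = (r + 1) * (k + 1) := by ring
      _ ≤ v * (k + 1) := Nat.mul_le_mul_right _ (by omega)
  have hW : 1 ≤ ((bb b κ : ℝ) * B ^ κ) ^ e := one_le_pow₀ (one_le_bB b κ hB)
  have hφ : ∀ (σ : L →+* ℂ) (x : 𝓞 L), σ (x : L) = (σ.comp (algebraMap (𝓞 L) L)) x :=
    fun σ x => rfl
  have hent : ∀ (σ : L →+* ℂ) (x : Eq') (u : Ev e × Fin (k + 1)),
      ‖σ ((M x u : 𝓞 L) : L)‖ ≤ ((bb b κ : ℝ) * B ^ κ) ^ e := by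
    intro σ x u
    rw [hφ]
    simp only [M]
    rw [map_mul, map_intCast, norm_mul, Complex.norm_intCast]
    have h1 : |((sgn x.1.1.1 u.1.1 : ℤ) : ℝ)| = 1 := by
      unfold sgn
      rcases Int.units_eq_one_or (∏ i ∈ u.1.1, x.1.1.1 i) with h2 | h2
      · rw [h2]; simp
      · rw [h2]; simp
    rw [h1, one_mul]
    exact entry_bound (σ.comp (algebraMap (𝓞 L) L)) b κ z hB (fun i => hz σ i) _ _ _ _
  obtain ⟨eU⟩ : Nonempty (Ev e × Fin (k + 1) ≃ Fin q) := by
    rw [hq]; exact ⟨Fintype.equivFin _⟩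
  obtain ⟨c, hc0, hc, hcb⟩ := h L (Fintype.card Eq') q hpq
    (Matrix.of fun i j => M ((Fintype.equivFin Eq').symm i) (eU.symm j))
    (((bb b κ : ℝ) * B ^ κ) ^ e) hW (fun σ i j => hent σ _ _)
  have hrow : ∀ x : Eq', ∑ u, M x u * c (eU u) = 0 := by
    intro x
    have h1 := congrFun hc (Fintype.equivFin Eq' x)
    simp only [Matrix.mulVec, dotProduct, Matrix.of_apply, Equiv.symm_apply_apply,
      Pi.zero_apply] at h1
    rw [← h1, ← Equiv.sum_comp eU]
    simp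
  have hbd : ∀ (σ : L →+* ℂ) (j : Fin q), ‖σ (c j : L)‖ ≤
      (((q * bb b κ ^ e) ^ q : ℕ) : ℝ) * B ^ (κ * e * q) := by
    intro σ j
    refine (hcb σ j).trans (le_of_eq ?_)
    push_cast
    rw [pow_mul, pow_mul, mul_pow (bb b κ : ℝ) (B ^ κ) e, ← mul_pow]
    ring
  let P : Ev e → (𝓞 L)[X] := fun I => ∑ j : Fin (k + 1), C (c (eU (I, j))) * X ^ (j : ℕ)
  have hcoe : ∀ (I : Ev e) (n : ℕ), (P I).coeff n =
      if hn : n < k + 1 then c (eU (I, ⟨n, hn⟩)) else 0 := by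
    intro I n
    simp only [P, Polynomial.finsetSum_coeff, Polynomial.coeff_C_mul, Polynomial.coeff_X_pow]
    split_ifs with hn
    · rw [Finset.sum_eq_single (⟨n, hn⟩ : Fin (k + 1))]
      · simp
      · intro j _ hj
        have : n ≠ (j : ℕ) := fun h2 => hj (Fin.ext h2.symm)
        simp [this]
      · intro h2; exact absurd (Finset.mem_univ _) h2
    · apply Finset.sum_eq_zero
      intro j _
      have : n ≠ (j : ℕ) := by
        have := j.2
        omega
      simp [this]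
  refine ⟨P, ?_, ?_, ?_, ?_⟩
  · by_contra hcon
    push Not at hcon
    apply hc0
    funext j
    obtain ⟨⟨I, i⟩, rfl⟩ := eU.surjective j
    have h1 := hcoe I i
    rw [hcon I, Polynomial.coeff_zero, dif_pos i.2] at h1
    exact h1.symm
  · intro I
    rw [Polynomial.natDegree_le_iff_coeff_eq_zero]
    intro n hn
    rw [hcoe, dif_neg (by omega)]
  · intro I j σ
    rw [hcoe]
    split_ifs with hj
    · exact hbd σ _
    · have h0 : ((0 : 𝓞 L) : L) = 0 := map_zero (algebraMap (𝓞 L) L)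
      rw [h0, map_zero, norm_zero]
      have : 0 ≤ B := by linarith
      positivity
  · intro ε hε1 hε2
    rw [Polynomial.X_pow_dvd_iff]
    intro m hm
    have hne : nrm ε ≠ nrm η := by
      intro h1
      rcases hn2 ε with h2 | h2 <;> rcases hn2 η with h3 | h3
      · exact hε1 (by rw [← h2, h1, h3])
      · exact hε2 (by rw [← h2, h1, h3])
      · apply hε2
        rw [← neg_neg ε, ← h2, h1, h3]
      · apply hε1
        rw [← neg_neg ε, ← h2, h1, h3, neg_neg]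
    have h1 := hrow (⟨⟨nrm ε, hn1 ε⟩, hne⟩, ⟨m, hm⟩)
    rw [Polynomial.finsetSum_coeff, ← h1, Fintype.sum_prod_type]
    refine Finset.sum_congr rfl fun I _ => ?_
    have e1 : C ((sgn ε I.1 : ℤ) : 𝓞 L) * P I * X ^ (e - I.1.card / 2) * QI b κ z I.1 =
        ∑ j : Fin (k + 1), C (((sgn ε I.1 : ℤ) : 𝓞 L) * c (eU (I, j))) *
          (X ^ (j : ℕ) * (X ^ (e - I.1.card / 2) * QI b κ z I.1)) := by
      simp only [P]
      rw [Finset.mul_sum, Finset.sum_mul, Finset.sum_mul]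
      refine Finset.sum_congr rfl fun j _ => ?_
      rw [C_mul]
      ring
    rw [e1, Polynomial.finsetSum_coeff]
    refine Finset.sum_congr rfl fun j _ => ?_
    rw [Polynomial.coeff_C_mul]
    simp only [M]
    rw [hsgn ε I]
    ring

end Pool.Agent.Y945.HY
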